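import Pool.Agent.V5helper50.RS.Stm2

/-!
# Project RS: existence of the random model
-/

set_option autoImplicit false

open Finset MeasureTheory ProbabilityTheory

namespace Pool.Agent.V5helper47.RS

open Pool.Agent.V5helper50.RS

theorem t_MOD : Pool.Agent.V5helper50.RS.S_MOD := by
  intro k
  haveI hne : ∀ x, Nonempty (Fin (Tk k x)) := fun x => ⟨⟨0, Tk_pos k x⟩⟩
  let P : (x : ℕ) → Measure (Fin (Tk k x)) := fun x => (PMF.uniformOfFintype (Fin (Tk k x))).toMeasure
  haveI hP : ∀ x, IsProbabilityMeasure (P x) := fun x => PMF.toMeasure.isProbabilityMeasure _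
  refine ⟨∀ x, Fin (Tk k x), MeasurableSpace.pi, Measure.infinitePi P, fun x ω => (ω x : ℕ), ?_⟩
  refine { prob := inferInstance, meas := ?_, indep := ?_, bound := fun x ω => (ω x).2, unif := ?_ }
  · intro x
    exact (measurable_of_finite (fun a : Fin (Tk k x) => (a : ℕ))).comp (measurable_pi_apply x)
  · exact iIndepFun_infinitePi (P := P) (X := fun x (a : Fin (Tk k x)) => (a : ℕ))
      (fun x => measurable_of_finite _)
  · intro x v hv
    have hmap := Measure.infinitePi_map_eval P x
    have h1 : {ω : ∀ x, Fin (Tk k x) | (ω x : ℕ) = v} = (fun ω => ω x) ⁻¹' {(⟨v, hv⟩ : Fin (Tk k x))} := by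
      ext ω
      simp [Fin.ext_iff]
    have h2 : Measure.infinitePi P {ω : ∀ x, Fin (Tk k x) | (ω x : ℕ) = v} = P x {⟨v, hv⟩} := by
      rw [h1, ← Measure.map_apply (measurable_pi_apply x) (measurableSet_singleton _), hmap]
    have h3 : P x {⟨v, hv⟩} = ((Tk k x : ℕ) : ENNReal)⁻¹ := by
      show (PMF.uniformOfFintype (Fin (Tk k x))).toMeasure {⟨v, hv⟩} = _
      rw [PMF.toMeasure_apply_singleton _ _ (measurableSet_singleton _), PMF.uniformOfFintype_apply,
        Fintype.card_fin]
    rw [Measure.real, h2, h3, ENNReal.toReal_inv, ENNReal.toReal_natCast, one_div]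

end Pool.Agent.V5helper47.RS
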