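import Pool.Agent.V5helper50.RS.Stm2

/-!
# Project RS: the number of the solutions modulo `Q`, in terms of `ZMod Q`
-/

set_option autoImplicit false

open Finset MeasureTheory ProbabilityTheory

namespace Pool.Agent.V5helper47.RS

open Pool.Agent.V5helper50.RS

theorem t_CNV : Pool.Agent.V5helper50.RS.S_CNV := by
  classical
  intro k Q d u hQ
  haveI : NeZero Q := ⟨by omega⟩
  rw [Nat.card_eq_fintype_card, Fintype.card_subtype]
  congr 1
  unfold M
  refine Finset.card_bij' (fun x _ i => ((x i : ℕ) : ZMod Q)) (fun y _ i => (y i).val) ?_ ?_ ?_ ?_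
  · intro x hx
    rw [mem_filter] at hx ⊢
    refine ⟨mem_univ _, ?_⟩
    have h := (ZMod.natCast_eq_natCast_iff' (∑ i, x i ^ k) u Q).2 hx.2
    rw [← h, Nat.cast_sum]
    exact sum_congr rfl fun i _ => (Nat.cast_pow _ _).symm
  · intro y hy
    rw [mem_filter] at hy ⊢
    refine ⟨?_, ?_⟩
    · rw [Fintype.mem_piFinset]
      intro i
      exact mem_range.2 (ZMod.val_lt _)
    · refine (ZMod.natCast_eq_natCast_iff' _ u Q).1 ?_
      rw [← hy.2, Nat.cast_sum]
      refine sum_congr rfl fun i _ => ?_
      rw [Nat.cast_pow, ZMod.natCast_zmod_val]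
  · intro x hx
    rw [mem_filter, Fintype.mem_piFinset] at hx
    funext i
    exact ZMod.val_cast_of_lt (mem_range.1 (hx.1 i))
  · intro y hy
    funext i
    exact ZMod.natCast_zmod_val _

end Pool.Agent.V5helper47.RS
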